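import Mathlib

/-!
# MRDP: arithmetic of the bounded universal quantifier (Davis)
-/

set_option autoImplicit false

namespace Pool.Agent.Helper55.MRDP

open Finset Nat

/-- prime divisors of `1 + (k + 1) * Q!` are larger than `Q` -/
theorem lt_of_dvd {Q k p : ℕ} (hp : p.Prime) (h : p ∣ 1 + (k + 1) * Q !) : Q < p := by
  by_contra hc
  have h1 : p ∣ Q ! := Nat.dvd_factorial hp.pos (not_lt.1 hc)
  have h2 : p ∣ 1 := (Nat.dvd_add_left (h1.mul_left (k + 1))).1 h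
  exact hp.one_lt.ne' (Nat.dvd_one.1 h2)

theorem cop_fact (Q k : ℕ) : Nat.Coprime (1 + (k + 1) * Q !) (Q !) := by
  rw [Nat.coprime_add_mul_right_left]
  exact Nat.coprime_one_left _

theorem cop_pair {Q y j k : ℕ} (hQ : y ≤ Q) (hj : j < y) (hk : k < y) (hjk : j ≠ k) :
    Nat.Coprime (1 + (j + 1) * Q !) (1 + (k + 1) * Q !) := by
  rw [Nat.coprime_iff_gcd_eq_one]
  by_contra hc
  obtain ⟨p, hp, hpd⟩ := Nat.exists_prime_and_dvd hc
  have h1 : p ∣ 1 + (j + 1) * Q ! := hpd.trans (Nat.gcd_dvd_left _ _)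
  have h2 : p ∣ 1 + (k + 1) * Q ! := hpd.trans (Nat.gcd_dvd_right _ _)
  have hQp := lt_of_dvd hp h1
  have h3 : (p : ℤ) ∣ ((j : ℤ) - k) * (Q ! : ℕ) := by
    have e1 : (p : ℤ) ∣ ((1 + (j + 1) * Q ! : ℕ) : ℤ) := by exact_mod_cast h1
    have e2 : (p : ℤ) ∣ ((1 + (k + 1) * Q ! : ℕ) : ℤ) := by exact_mod_cast h2
    have e3 := dvd_sub e1 e2
    have e4 : ((1 + (j + 1) * Q ! : ℕ) : ℤ) - ((1 + (k + 1) * Q ! : ℕ) : ℤ) =
        ((j : ℤ) - k) * (Q ! : ℕ) := by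
      push_cast
      ring
    rwa [e4] at e3
  have hp' : Prime (p : ℤ) := Nat.prime_iff_prime_int.1 hp
  rcases hp'.dvd_or_dvd h3 with h4 | h4
  · have h5 : ((j : ℤ) - k) = 0 := by
      refine Int.eq_zero_of_abs_lt_dvd h4 ?_
      rw [abs_lt]
      constructor <;> omega
    omega
  · have h5 : p ∣ Q ! := by exact_mod_cast h4
    exact absurd ((hp.dvd_factorial).1 h5) (by omega)

/-- `c = k` modulo a divisor of both numbers -/
theorem modEq_of_dvd {Q c k N : ℕ} (h1 : N ∣ 1 + (c + 1) * Q !) (h2 : N ∣ 1 + (k + 1) * Q !) :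
    c ≡ k [MOD N] := by
  have hN : IsCoprime (N : ℤ) ((Q ! : ℕ) : ℤ) := by
    rw [Nat.isCoprime_iff_coprime]
    exact Nat.Coprime.coprime_dvd_left h2 (cop_fact Q k)
  have h3 : (N : ℤ) ∣ ((k : ℤ) - c) * ((Q ! : ℕ) : ℤ) := by
    have e1 : (N : ℤ) ∣ ((1 + (c + 1) * Q ! : ℕ) : ℤ) := by exact_mod_cast h1
    have e2 : (N : ℤ) ∣ ((1 + (k + 1) * Q ! : ℕ) : ℤ) := by exact_mod_cast h2
    have e3 := dvd_sub e2 e1
    have e4 : ((1 + (k + 1) * Q ! : ℕ) : ℤ) - ((1 + (c + 1) * Q ! : ℕ) : ℤ) =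
        ((k : ℤ) - c) * (Q ! : ℕ) := by
      push_cast
      ring
    rwa [e4] at e3
  rw [Nat.modEq_iff_dvd]
  exact hN.dvd_of_dvd_mul_right h3

theorem prod_eq {Q y : ℕ} (hy : 0 < y) : ∃ c : ℕ,
    1 + (c + 1) * Q ! = ∏ k ∈ range y, (1 + (k + 1) * Q !) := by
  induction y with
  | zero => omega
  | succ y ih =>
    rcases Nat.eq_zero_or_pos y with h | h
    · subst h
      exact ⟨0, by simp⟩
    · obtain ⟨c, hc⟩ := ih h
      refine ⟨(c + 1) * ((y + 1) * Q !) + c + (y + 1), ?_⟩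
      rw [prod_range_succ, ← hc]
      ring

theorem exists_le_of_dvd {p a u : ℕ} (hp : p.Prime) (h : p ∣ a.descFactorial (u + 1)) :
    ∃ s ≤ u, a ≡ s [MOD p] := by
  rw [Nat.descFactorial_eq_prod_range] at h
  obtain ⟨j, hj, hd⟩ := (Prime.dvd_finsetProd_iff (Nat.prime_iff.1 hp) _).1 h
  rw [mem_range] at hj
  rcases le_or_gt j a with hja | hja
  · exact ⟨j, by omega, ((Nat.modEq_iff_dvd' hja).2 hd).symm⟩
  · exact ⟨a, by omega, rfl⟩

theorem dvd_descFactorial {N a u s : ℕ} (hs : s ≤ u) (h : a ≡ s [MOD N]) :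
    N ∣ a.descFactorial (u + 1) := by
  rcases le_or_gt s a with hsa | hsa
  · rw [Nat.descFactorial_eq_prod_range]
    exact ((Nat.modEq_iff_dvd' hsa).1 h.symm).trans
      (Finset.dvd_prod_of_mem (fun j => a - j) (mem_range.2 (by omega)))
  · rw [Nat.descFactorial_of_lt (by omega)]
    exact dvd_zero _

/-- **the bounded quantifier** -/
theorem ball_core {m y Q u : ℕ} (P : ℕ → (Fin m → ℕ) → ℤ) (hy : 0 < y) (hQy : y ≤ Q)
    (hP : ∀ N c k : ℕ, ∀ a s : Fin m → ℕ, c ≡ k [MOD N] → (∀ i, a i ≡ s i [MOD N]) →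
      ((N : ℤ) ∣ P c a ↔ (N : ℤ) ∣ P k s))
    (hQ : ∀ k < y, ∀ s : Fin m → ℕ, (∀ i, s i ≤ u) → |P k s| ≤ Q) :
    (∀ k < y, ∃ s : Fin m → ℕ, (∀ i, s i ≤ u) ∧ P k s = 0) ↔
      ∃ (c : ℕ) (a : Fin m → ℕ), 1 + (c + 1) * Q ! = ∏ k ∈ range y, (1 + (k + 1) * Q !) ∧
        (∀ i, (1 + (c + 1) * Q !) ∣ (a i).descFactorial (u + 1)) ∧
        ((1 + (c + 1) * Q ! : ℕ) : ℤ) ∣ P c a := by
  constructor
  · intro h
    choose! s hs1 hs2 using h
    obtain ⟨c, hc⟩ := prod_eq (Q := Q) hy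
    -- the remainders
    have hco : Set.Pairwise (range y : Set ℕ)
        (Function.onFun Nat.Coprime (fun k => 1 + (k + 1) * Q !)) := by
      intro j hj k hk hjk
      exact cop_pair hQy (mem_range.1 (mem_coe.1 hj)) (mem_range.1 (mem_coe.1 hk)) hjk
    have hcrt : ∀ i : Fin m, ∃ a : ℕ, ∀ k ∈ range y, a ≡ s k i [MOD (1 + (k + 1) * Q !)] := by
      intro i
      have h1 : ∀ k ∈ range y, (1 + (k + 1) * Q !) ≠ 0 := fun k _ => by omega
      obtain ⟨a, ha⟩ := Nat.chineseRemainderOfFinset (fun k => s k i)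
        (fun k => 1 + (k + 1) * Q !) (range y) h1 hco
      exact ⟨a, ha⟩
    choose a ha using hcrt
    have hdiv : ∀ k ∈ range y, (1 + (k + 1) * Q !) ∣ 1 + (c + 1) * Q ! := by
      intro k hk
      rw [hc]
      exact Finset.dvd_prod_of_mem (fun k => 1 + (k + 1) * Q !) hk
    refine ⟨c, a, hc, fun i => ?_, ?_⟩
    · rw [hc]
      refine Finset.prod_dvd_of_isRelPrime ?_ ?_
      · intro j hj k hk hjk
        exact Nat.coprime_iff_isRelPrime.1 (hco hj hk hjk)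
      · intro k hk
        exact dvd_descFactorial (hs1 k (mem_range.1 hk) i) (ha i k hk)
    · rw [hc]
      push_cast
      have h3 : ∀ k ∈ range y, ((1 + ((k : ℤ) + 1) * (Q ! : ℕ)) : ℤ) ∣ P c a := by
        intro k hk
        have h4 := (hP (1 + (k + 1) * Q !) c k a (s k) (modEq_of_dvd (hdiv k hk) dvd_rfl)
          (fun i => ha i k hk)).2 (by
            rw [hs2 k (mem_range.1 hk)]
            exact dvd_zero _)
        push_cast at h4
        exact h4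
      refine Finset.prod_dvd_of_coprime ?_ h3
      intro j hj k hk hjk
      have h4 := Nat.isCoprime_iff_coprime.2 (hco hj hk hjk)
      push_cast at h4
      exact h4
  · rintro ⟨c, a, hc, h1, h2⟩ k hk
    obtain ⟨p, hp, hpd⟩ := Nat.exists_prime_and_dvd
      (show 1 + (k + 1) * Q ! ≠ 1 by
        have := Nat.mul_pos (Nat.succ_pos k) (Nat.factorial_pos Q)
        simp only [Nat.succ_eq_add_one] at this
        omega)
    have hkc : (1 + (k + 1) * Q !) ∣ 1 + (c + 1) * Q ! := by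
      rw [hc]
      exact Finset.dvd_prod_of_mem (fun k => 1 + (k + 1) * Q !) (mem_range.2 hk)
    have hpc : p ∣ 1 + (c + 1) * Q ! := hpd.trans hkc
    have hQp := lt_of_dvd hp hpd
    have h3 : ∀ i, ∃ s ≤ u, a i ≡ s [MOD p] := fun i => exists_le_of_dvd hp (hpc.trans (h1 i))
    choose s hs1 hs2 using h3
    refine ⟨s, hs1, ?_⟩
    have h4 : (p : ℤ) ∣ P k s := by
      refine (hP p c k a s (modEq_of_dvd hpc hpd) hs2).1 ?_
      exact (by exact_mod_cast hpc : (p : ℤ) ∣ ((1 + (c + 1) * Q ! : ℕ) : ℤ)).trans h2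
    have h5 := hQ k hk s hs1
    refine Int.eq_zero_of_abs_lt_dvd h4 (lt_of_le_of_lt h5 ?_)
    exact_mod_cast hQp

end Pool.Agent.Helper55.MRDP
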